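import Pool.Agent.U756.GD.RedK
import Pool.Agent.Y219.CQ.LA

/-!
# Project GDK: the probability that a random symmetric completion has corank `k` (S_LAK)
-/

set_option autoImplicit false
set_option linter.unusedVariables false

open scoped Classical

namespace Pool.Agent.U756.GD

open Function Module Finset
open Pool.Agent.Y759.CX (fr fr_equiv fr_comp)
open Pool.Agent.Y703.CQ (S_SYM S_C2 c2 prs)
open Pool.Agent.U115.GD (ck GdAK LAC S_LAK)
open Pool.Agent.Y219.CQ (F card_mod finHom finHom2 Sy finSy mf mf_apply bf bf_apply bf_l bf_r bf_symm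
  bf_add all_zero zx zx_of zx_not sum_zx mL mZ mA mC mL_symm mZ_symm pa pa_surj row1 row2)

section forms

variable {ι κ : Type} [Fintype ι] [Fintype κ]

lemma mem_ker_mf (MA : ι → ι → F) (MC : ι → κ → F) (MS : κ → κ → F) (w : (ι → F) × (κ → F)) :
    w ∈ LinearMap.ker (mf (bf MA) (bf MC) (bf MS)) ↔
      (∀ v, ∑ u, w.1 u * MA u v + ∑ k, MC v k * w.2 k = 0) ∧
      (∀ l, ∑ u, w.1 u * MC u l + ∑ k, w.2 k * MS k l = 0) := by
  have e1 : ∀ x' : ι → F, bf MA w.1 x' + bf MC x' w.2 =
      ∑ v, (∑ u, w.1 u * MA u v + ∑ k, MC v k * w.2 k) * x' v := by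
    intro x'
    rw [bf_l, bf_r, ← sum_add_distrib]
    exact sum_congr rfl fun v _ => by rw [add_mul]
  have e2 : ∀ y' : κ → F, bf MC w.1 y' + bf MS w.2 y' =
      ∑ l, (∑ u, w.1 u * MC u l + ∑ k, w.2 k * MS k l) * y' l := by
    intro y'
    rw [bf_l, bf_l, ← sum_add_distrib]
    exact sum_congr rfl fun v _ => by rw [add_mul]
  have e3 : ∀ w' : (ι → F) × (κ → F), mf (bf MA) (bf MC) (bf MS) w w' =
      (bf MA w.1 w'.1 + bf MC w'.1 w.2) + (bf MC w.1 w'.2 + bf MS w.2 w'.2) := by
    intro w'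
    rw [mf_apply]
    abel
  rw [LinearMap.mem_ker]
  constructor
  · intro h
    refine ⟨all_zero _ fun x' => ?_, all_zero _ fun y' => ?_⟩
    · rw [← e1]
      have h1 := LinearMap.congr_fun h (x', (0 : κ → F))
      rw [e3] at h1
      simp only [map_zero, add_zero, LinearMap.zero_apply] at h1
      exact h1
    · rw [← e2]
      have h1 := LinearMap.congr_fun h ((0 : ι → F), y')
      rw [e3] at h1
      simp only [map_zero, zero_add, LinearMap.zero_apply] at h1
      exact h1
  · rintro ⟨h1, h2⟩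
    refine LinearMap.ext fun w' => ?_
    rw [e3, e1, e2]
    simp only [h1, h2, zero_mul, sum_const_zero, add_zero, LinearMap.zero_apply]

end forms

section main

variable {U J : Type} [Fintype U] [Fintype J] [LinearOrder J]

lemma gdk_iff (d : ℕ) (U1 : Finset U) (J1 : Finset J) (A : U → U → F) (B : U → J → F)
    (C : J → U → F) (f : U → F) (g : J → F) (hA : ∀ u ∈ U1, ∀ v ∈ U1, A u v = A v u)
    (hB : ∀ u ∈ U1, ∀ k ∈ J1, B u k = C k u) (α : prs J1 → F) :
    GdAK d U1 J1 A B C (Pool.Agent.Y703.CQ.ext α) f g ↔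
      Rk d (mf (bf (mA U1 A B f)) (bf (mC U1 J1 C)) (bf fun k l => mL J1 α k l + mZ J1 C g k l)) := by
  have key : Nat.card {z : (U → ZMod 2) × (J → ZMod 2) // (∀ u, u ∉ U1 → z.1 u = 0) ∧
    (∀ l, l ∉ J1 → z.2 l = 0) ∧
    (∀ u ∈ U1, ∑ v, A u v * (z.1 v + z.1 u) + ∑ l, B u l * (z.2 l + z.1 u) + f u * z.1 u = 0) ∧
    (∀ j ∈ J1, ∑ u, C j u * (z.1 u + z.2 j) + ∑ l, Pool.Agent.Y703.CQ.ext α j l *
      (z.2 l + z.2 j) + g j * z.2 j = 0)} =
    Nat.card (LinearMap.ker (mf (bf (mA U1 A B f)) (bf (mC U1 J1 C))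
      (bf fun k l => mL J1 α k l + mZ J1 C g k l))) := by
    have ex : ∀ x : U → F, (∀ u, u ∉ U1 → x u = 0) → zx U1 (fun u => x u) = x := by
      intro x hx
      funext u
      by_cases hu : u ∈ U1
      · exact zx_of U1 (fun u => x u) ⟨u, hu⟩
      · rw [zx_not U1 _ hu, hx u hu]
    have ey : ∀ y : J → F, (∀ u, u ∉ J1 → y u = 0) → zx J1 (fun u => y u) = y := by
      intro y hy
      funext u
      by_cases hu : u ∈ J1
      · exact zx_of J1 (fun u => y u) ⟨u, hu⟩
      · rw [zx_not J1 _ hu, hy u hu]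
    refine Nat.card_congr ?_
    exact {
      toFun := fun z => ⟨(fun u => z.1.1 u, fun k => z.1.2 k), by
        rw [mem_ker_mf]
        obtain ⟨⟨x, y⟩, hx, hy, h1, h2⟩ := z
        constructor
        · intro u
          have h3 := h1 u u.2
          show ∑ u_1 : U1, x u_1 * mA U1 A B f u_1 u + ∑ k : J1, mC U1 J1 C u k * y k = 0
          rw [← row1 U1 J1 A B C f hA hB, ex x hx, ey y hy]
          exact h3
        · intro k
          have h3 := h2 k k.2
          show ∑ u : U1, x u * mC U1 J1 C u k + ∑ k_1 : J1, y k_1 * (mL J1 α k_1 k + mZ J1 C g k_1 k) = 0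
          rw [← row2 U1 J1 C g α, ex x hx, ey y hy]
          exact h3⟩
      invFun := fun w => ⟨(zx U1 w.1.1, zx J1 w.1.2), fun u hu => zx_not U1 _ hu,
        fun l hl => zx_not J1 _ hl, fun u hu => by
          have h3 := ((mem_ker_mf _ _ _ _).1 w.2).1 ⟨u, hu⟩
          rw [← row1 U1 J1 A B C f hA hB] at h3
          exact h3, fun k hk => by
          have h3 := ((mem_ker_mf _ _ _ _).1 w.2).2 ⟨k, hk⟩
          rw [← row2 U1 J1 C g α] at h3
          exact h3⟩
      left_inv := fun z => by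
        obtain ⟨⟨x, y⟩, hx, hy, h1, h2⟩ := z
        exact Subtype.ext (Prod.ext (ex x hx) (ey y hy))
      right_inv := fun w => by
        refine Subtype.ext (Prod.ext (funext fun u => ?_) (funext fun k => ?_))
        · exact zx_of U1 _ u
        · exact zx_of J1 _ k }
  unfold Pool.Agent.U115.GD.GdAK
  rw [key, card_mod]
  unfold Rk
  exact ⟨fun h => Nat.pow_right_injective (le_refl 2) h, fun h => by rw [h]⟩

end main

theorem t_LAK : S_LAK := by
  intro h h2 d
  refine ⟨2 ^ (d + 1) + 1, by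
    have : (0 : ℝ) < 2 ^ (d + 1) := by positivity
    linarith, ?_⟩
  intro U J _ _ _ U1 J1 hJ A B C f g hA hB hC
  have e1 : finrank F (U1 → F) = U1.card := by
    rw [finrank_fintype_fun_eq_card, Fintype.card_coe]
  have e2 : finrank F (J1 → F) = J1.card := by
    rw [finrank_fintype_fun_eq_card, Fintype.card_coe]
  have key := fr_GsK h h2 d (bf (mA U1 A B f)) (bf_symm _ fun u v => by
      unfold Pool.Agent.Y219.CQ.mA
      by_cases huv : u = v
      · rw [huv]
      · rw [if_neg huv, if_neg (Ne.symm huv), hA u u.2 v v.2])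
    (bf (mC U1 J1 C)) (fun x hx => by
      by_contra hne
      obtain ⟨k, hk, hk'⟩ := hC (zx U1 x) (fun u hu => zx_not U1 x hu) (by
        by_contra hc
        push Not at hc
        exact hne (funext fun u => by rw [← zx_of U1 x u, hc]; rfl))
      apply hk'
      have h3 := all_zero (fun k : J1 => ∑ i, x i * mC U1 J1 C i k) (fun y => by
        rw [← bf_l]
        exact hx y) ⟨k, hk⟩
      rw [← h3]
      have h4 : ∑ u, zx U1 x u * C k u = ∑ u, C k u * zx U1 x u :=
        sum_congr rfl fun u _ => mul_comm _ _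
      rw [h4, sum_zx]
      exact sum_congr rfl fun u _ => by rw [mul_comm]; rfl)
  rw [e1, e2] at key
  have h5 : ((univ.filter fun α : prs J1 → ZMod 2 =>
      GdAK d U1 J1 A B C (Pool.Agent.Y703.CQ.ext α) f g).card : ℝ) / 2 ^ (prs J1).card =
      fr (fun S : Sy (J1 → F) => Rk d (mf (bf (mA U1 A B f)) (bf (mC U1 J1 C)) S.1)) := by
    let S0 : Sy (J1 → F) := ⟨bf (mZ J1 C g), bf_symm _ (mZ_symm J1 C g)⟩
    rw [← fr_equiv (Equiv.addRight S0)
      (fun S : Sy (J1 → F) => Rk d (mf (bf (mA U1 A B f)) (bf (mC U1 J1 C)) S.1)),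
      ← fr_comp (pa J1) (pa_surj J1 hJ)]
    unfold Pool.Agent.Y759.CX.fr
    have h6 : Nat.card (prs J1 → F) = 2 ^ (prs J1).card := by
      rw [Nat.card_fun, Nat.card_eq_fintype_card, Nat.card_eq_fintype_card, ZMod.card,
        Fintype.card_coe]
    rw [h6, Nat.card_eq_fintype_card, Fintype.card_subtype]
    push_cast
    congr 3
    refine Finset.filter_congr fun α _ => ?_
    rw [gdk_iff d U1 J1 A B C f g hA hB α, bf_add]
    exact Iff.rfl
  rw [h5]
  exact key

end Pool.Agent.U756.GD
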