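import Pool.Agent.Y219.CQ.Abs
import Pool.Agent.U115.GD.StmK

/-!
# Project GDK: the dimension of the radical of a random symmetric form over the field with two elements
-/

set_option autoImplicit false
set_option linter.unusedVariables false

open scoped Classical

namespace Pool.Agent.U756.GD

open Function Module
open Pool.Agent.Y759.CX (fr fr_equiv fr_nonneg fr_le_one fr_mono fr_not fr_prod fr_comp fr_exists
  fr_single)
open Pool.Agent.Y703.CQ (S_SYM S_C2 c2)
open Pool.Agent.Y219.CQ (F card_mod finHom finHom2 Sy finSy sp Ns card_symm fr_Ns avg_bound)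
open Pool.Agent.U115.GD (ck)

section cnt

variable {V : Type} [AddCommGroup V] [Module F V] [Finite V]

/-- the radical has dimension `k` -/
def Rk (k : ℕ) (S : V →ₗ[F] V →ₗ[F] F) : Prop := finrank F (LinearMap.ker S) = k

lemma card_Sy : Nat.card (Sy V) = 2 ^ (finrank F V * (finrank F V + 1) / 2) := by
  obtain ⟨n, hn⟩ : ∃ n, n = finrank F V := ⟨_, rfl⟩
  rw [← hn]
  let b : Basis (Fin n) F V := Module.finBasisOfFinrankEq F V hn.symm
  have hsymm : ∀ S : V →ₗ[F] V →ₗ[F] F, S ∈ Sy V ↔
      ((LinearMap.BilinForm.toMatrix b).toEquiv S).IsSymm := by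
    intro S
    refine Iff.trans ?_ (LinearMap.BilinForm.isSymm_toMatrix_iff_isSymm (B := S) b).symm
    exact ⟨fun h => ⟨fun x y => h x y⟩, fun h x y => h.eq x y⟩
  have e1 : Sy V ≃ {M : Matrix (Fin n) (Fin n) F // M.IsSymm} :=
    Equiv.subtypeEquiv (LinearMap.BilinForm.toMatrix b).toEquiv hsymm
  rw [Nat.card_congr e1, card_symm]

lemma card_Ns (h : S_SYM) : (Nat.card {S : Sy V // Ns S.1} : ℝ) =
    sp (finrank F V) * 2 ^ (finrank F V * (finrank F V + 1) / 2) := by
  have h1 := fr_Ns (V := V) h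
  unfold fr at h1
  rw [card_Sy] at h1
  push_cast at h1
  rw [← h1, div_mul_cancel₀]
  positivity

/-- forms with a given radical -/
lemma card_ker_eq (R : Submodule F V) :
    Nat.card {S : Sy V // LinearMap.ker S.1 = R} = Nat.card {S : Sy (V ⧸ R) // Ns S.1} := by
  obtain ⟨s, hs⟩ := R.mkQ.exists_rightInverse_of_surjective (Submodule.range_mkQ R)
  have hs' : ∀ z, R.mkQ (s z) = z := fun z => LinearMap.congr_fun hs z
  have hd : ∀ v : V, v - s (R.mkQ v) ∈ R := by
    intro v
    have h8 : v - s (R.mkQ v) ∈ LinearMap.ker R.mkQ := by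
      rw [LinearMap.mem_ker, map_sub, hs', sub_self]
    rwa [Submodule.ker_mkQ] at h8
  refine Nat.card_congr ?_
  exact {
    toFun := fun S => ⟨⟨S.1.1.compl₁₂ s s, fun x y => S.1.2 _ _⟩, by
      intro z hz
      have h1 : s z ∈ LinearMap.ker S.1.1 := by
        rw [LinearMap.mem_ker]
        refine LinearMap.ext fun v => ?_
        have h2 := hz (R.mkQ v)
        have h3 : S.1.1 (s z) (s (R.mkQ v)) = 0 := h2
        have h4 : S.1.1 (v - s (R.mkQ v)) = 0 := by
          have h7 : v - s (R.mkQ v) ∈ LinearMap.ker S.1.1 := by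
            rw [S.2]
            exact hd v
          exact LinearMap.mem_ker.1 h7
        have h5 : S.1.1 (s z) (v - s (R.mkQ v)) = 0 := by
          rw [S.1.2, h4, LinearMap.zero_apply]
        rw [map_sub, h3, sub_zero] at h5
        rw [h5, LinearMap.zero_apply]
      rw [S.2] at h1
      rw [← hs' z]
      rwa [← LinearMap.mem_ker, Submodule.ker_mkQ]⟩
    invFun := fun T => ⟨⟨T.1.1.compl₁₂ R.mkQ R.mkQ, fun x y => T.1.2 _ _⟩, by
      ext v
      rw [LinearMap.mem_ker]
      constructor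
      · intro h
        have h1 : R.mkQ v = 0 := T.2 _ fun y => by
          have h2 := LinearMap.congr_fun h (s y)
          have h3 : T.1.1 (R.mkQ v) (R.mkQ (s y)) = 0 := h2
          rwa [hs'] at h3
        rwa [← LinearMap.mem_ker, Submodule.ker_mkQ] at h1
      · intro h
        have h1 : R.mkQ v = 0 := by
          rwa [← LinearMap.mem_ker, Submodule.ker_mkQ]
        refine LinearMap.ext fun y => ?_
        show T.1.1 (R.mkQ v) (R.mkQ y) = 0
        rw [h1, map_zero, LinearMap.zero_apply]⟩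
    left_inv := fun S => by
      refine Subtype.ext (Subtype.ext (LinearMap.ext fun x => LinearMap.ext fun y => ?_))
      show S.1.1 (s (R.mkQ x)) (s (R.mkQ y)) = S.1.1 x y
      have hk : ∀ v : V, S.1.1 (s (R.mkQ v)) = S.1.1 v := by
        intro v
        have h7 : v - s (R.mkQ v) ∈ LinearMap.ker S.1.1 := by
          rw [S.2]
          exact hd v
        rw [LinearMap.mem_ker, map_sub, sub_eq_zero] at h7
        exact h7.symm
      rw [hk, S.1.2, hk, S.1.2]
    right_inv := fun T => by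
      refine Subtype.ext (Subtype.ext (LinearMap.ext fun x => LinearMap.ext fun y => ?_))
      show T.1.1 (R.mkQ (s x)) (R.mkQ (s y)) = T.1.1 x y
      rw [hs', hs'] }

/-- the double count -/
lemma count (k c : ℕ) (hc : ∀ s : {s : Fin k → V // LinearIndependent F s},
      Nat.card {S : Sy V // LinearMap.ker S.1 = Submodule.span F (Set.range s.1)} = c) :
    Nat.card {S : Sy V // Rk k S.1} * Nat.card {t : Fin k → (Fin k → F) //
      LinearIndependent F t} = Nat.card {s : Fin k → V // LinearIndependent F s} * c := by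
  have := Fintype.ofFinite {S : Sy V // Rk k S.1}
  have := Fintype.ofFinite {s : Fin k → V // LinearIndependent F s}
  have h0 : Nat.card {s : Fin k → V // LinearIndependent F s} * c =
      ∑ s : {s : Fin k → V // LinearIndependent F s},
      Nat.card {S : Sy V // LinearMap.ker S.1 = Submodule.span F (Set.range s.1)} := by
    rw [Finset.sum_congr rfl fun s _ => hc s, Finset.sum_const, smul_eq_mul, Finset.card_univ,
      Nat.card_eq_fintype_card]
  rw [h0, ← Nat.card_sigma]
  have h1 : ∀ S : {S : Sy V // Rk k S.1}, Nonempty ({t : Fin k → (Fin k → F) //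
      LinearIndependent F t} ≃ {t : Fin k → LinearMap.ker S.1.1 // LinearIndependent F t}) := by
    intro S
    have h2 : finrank F (LinearMap.ker S.1.1) = finrank F (Fin k → F) := by
      rw [S.2, finrank_fin_fun]
    let e := (LinearEquiv.ofFinrankEq _ _ h2).symm
    refine ⟨Equiv.subtypeEquiv (Equiv.arrowCongr (Equiv.refl _) e.toEquiv) fun t => ?_⟩
    show LinearIndependent F t ↔ LinearIndependent F (e ∘ t)
    exact (LinearMap.linearIndependent_iff e.toLinearMap (LinearEquiv.ker e)).symm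
  rw [← Nat.card_prod]
  refine Nat.card_congr (Equiv.trans (Equiv.sigmaEquivProd _ _).symm (Equiv.trans
    (Equiv.sigmaCongrRight fun S => (h1 S).some) ?_))
  exact {
    toFun := fun x => ⟨⟨fun i => (x.2.1 i : V), x.2.2.map' _ (Submodule.ker_subtype _)⟩,
      ⟨x.1.1, by
        have h9 : LinearIndependent F (fun i => (x.2.1 i : V)) :=
          x.2.2.map' _ (Submodule.ker_subtype _)
        have h10 : Submodule.span F (Set.range (fun i => (x.2.1 i : V))) =
            LinearMap.ker x.1.1.1 := by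
          refine Submodule.eq_of_le_of_finrank_eq ?_ ?_
          · rw [Submodule.span_le]
            rintro _ ⟨i, rfl⟩
            exact (x.2.1 i).2
          · rw [finrank_span_eq_card h9, Fintype.card_fin]
            exact x.1.2.symm
        exact h10.symm⟩⟩
    invFun := fun x => ⟨⟨x.2.1, by
        show finrank F (LinearMap.ker x.2.1.1) = k
        rw [x.2.2, finrank_span_eq_card x.1.2, Fintype.card_fin]⟩,
      ⟨fun i => ⟨x.1.1 i, by
        rw [x.2.2]
        exact Submodule.subset_span ⟨i, rfl⟩⟩, by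
        refine LinearIndependent.of_comp (Submodule.subtype _) ?_
        exact x.1.2⟩⟩
    left_inv := fun x => rfl
    right_inv := fun x => rfl }

end cnt


open Finset in
/-- the probability that the radical has dimension `k` -/
noncomputable def spk (n k : ℕ) : ℝ :=
  (∏ i ∈ range k, (1 - (2 : ℝ) ^ i / 2 ^ n)) * sp (n - k) /
    ∏ i ∈ range k, ((2 : ℝ) ^ (i + 1) - 1)

lemma sp_nonneg (m : ℕ) : 0 ≤ sp m := by
  unfold Pool.Agent.Y219.CQ.sp
  refine Finset.prod_nonneg fun i _ => ?_
  have : (1 / 2 : ℝ) ^ (2 * i + 1) ≤ 1 := pow_le_one₀ (by norm_num) (by norm_num)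
  linarith

lemma sp_le_one (m : ℕ) : sp m ≤ 1 := by
  unfold Pool.Agent.Y219.CQ.sp
  refine Finset.prod_le_one (fun i _ => ?_) fun i _ => ?_
  · have : (1 / 2 : ℝ) ^ (2 * i + 1) ≤ 1 := pow_le_one₀ (by norm_num) (by norm_num)
    linarith
  · have : (0 : ℝ) ≤ (1 / 2 : ℝ) ^ (2 * i + 1) := by positivity
    linarith

lemma den_pos (k : ℕ) : (1 : ℝ) ≤ ∏ i ∈ Finset.range k, ((2 : ℝ) ^ (i + 1) - 1) := by
  induction k with
  | zero => simp
  | succ k ih =>
    rw [Finset.prod_range_succ]
    have h1 : (1 : ℝ) ≤ 2 ^ (k + 1) - 1 := by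
      have : (2 : ℝ) ≤ 2 ^ (k + 1) := by
        rw [pow_succ]
        have : (1 : ℝ) ≤ 2 ^ k := one_le_pow₀ (by norm_num)
        linarith
      linarith
    nlinarith

lemma P_bounds (n k : ℕ) (h : k ≤ n) :
    0 ≤ ∏ i ∈ Finset.range k, (1 - (2 : ℝ) ^ i / 2 ^ n) ∧
    ∏ i ∈ Finset.range k, (1 - (2 : ℝ) ^ i / 2 ^ n) ≤ 1 ∧
    1 - (2 : ℝ) ^ k / 2 ^ n ≤ ∏ i ∈ Finset.range k, (1 - (2 : ℝ) ^ i / 2 ^ n) := by
  induction k with
  | zero =>
    refine ⟨by simp, by simp, ?_⟩
    have : (0 : ℝ) ≤ 2 ^ 0 / 2 ^ n := by positivity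
    simp only [Finset.range_zero, Finset.prod_empty]
    linarith
  | succ k ih =>
    obtain ⟨h1, h2, h3⟩ := ih (by omega)
    rw [Finset.prod_range_succ]
    have h4 : (0 : ℝ) ≤ 2 ^ k / 2 ^ n := by positivity
    have h5 : (2 : ℝ) ^ k / 2 ^ n ≤ 1 := by
      rw [div_le_one (by positivity)]
      exact pow_le_pow_right₀ (by norm_num) (by omega)
    have h6 : (2 : ℝ) ^ (k + 1) / 2 ^ n = 2 * (2 ^ k / 2 ^ n) := by
      rw [pow_succ]
      ring
    rw [h6]
    refine ⟨mul_nonneg h1 (by linarith), mul_le_one₀ h2 (by linarith) (by linarith), ?_⟩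
    nlinarith

lemma P_zero (n k : ℕ) (h : n < k) : ∏ i ∈ Finset.range k, (1 - (2 : ℝ) ^ i / 2 ^ n) = 0 := by
  refine Finset.prod_eq_zero (Finset.mem_range.2 h) ?_
  rw [div_self (by positivity), sub_self]

theorem spk_bound (hc2 : S_C2) (n k : ℕ) : |spk n k - ck k| ≤ 2 ^ (k + 1) / 2 ^ n := by
  have hD := den_pos k
  have hc0 := hc2.2.1
  have hc1 := hc2.2.2.1
  unfold spk Pool.Agent.U115.GD.ck
  rw [← sub_div, abs_div, abs_of_nonneg (by linarith :
    (0 : ℝ) ≤ ∏ i ∈ Finset.range k, ((2 : ℝ) ^ (i + 1) - 1))]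
  refine (div_le_self (abs_nonneg _) hD).trans ?_
  rcases lt_or_ge n k with h | h
  · rw [P_zero n k h, zero_mul, zero_sub, abs_neg, abs_of_pos hc0]
    refine hc1.le.trans ?_
    rw [le_div_iff₀ (by positivity), one_mul]
    exact pow_le_pow_right₀ (by norm_num) (by omega)
  · obtain ⟨h1, h2, h3⟩ := P_bounds n k h
    have h4 := hc2.1 ((n - k + 1) / 2)
    have h5 : (1 / 4 : ℝ) ^ ((n - k + 1) / 2) ≤ 2 ^ k / 2 ^ n := by
      have h6 : (1 / 4 : ℝ) ^ ((n - k + 1) / 2) ≤ (1 / 2) ^ (n - k) := by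
        have h7 : (1 / 4 : ℝ) = (1 / 2) ^ 2 := by norm_num
        rw [h7, ← pow_mul]
        exact pow_le_pow_of_le_one (by norm_num) (by norm_num) (by omega)
      refine h6.trans (le_of_eq ?_)
      obtain ⟨m, rfl⟩ := Nat.exists_eq_add_of_le h
      rw [Nat.add_sub_cancel_left, pow_add, one_div_pow]
      field_simp
    have h8 : |sp (n - k) - c2| ≤ 2 ^ k / 2 ^ n := h4.trans h5
    have h9 := sp_nonneg (n - k)
    have h10 := sp_le_one (n - k)
    have h11 : (2 : ℝ) ^ (k + 1) / 2 ^ n = 2 ^ k / 2 ^ n + 2 ^ k / 2 ^ n := by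
      rw [pow_succ]
      ring
    rw [h11]
    set P := ∏ i ∈ Finset.range k, (1 - (2 : ℝ) ^ i / 2 ^ n) with hP
    rw [abs_le] at h8 ⊢
    constructor <;> nlinarith

section fin

variable {V : Type} [AddCommGroup V] [Module F V] [Finite V]

lemma card_li (k : ℕ) : (Nat.card {s : Fin k → V // LinearIndependent F s} : ℝ) =
    ∏ i ∈ Finset.range k, ((2 : ℝ) ^ finrank F V - 2 ^ i) := by
  rcases le_or_gt k (finrank F V) with h | h
  · rw [card_linearIndependent h, ZMod.card, Nat.cast_prod, Finset.prod_range]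
    refine Finset.prod_congr rfl fun i _ => ?_
    rw [Nat.cast_sub (Nat.pow_le_pow_right (by norm_num) (by omega))]
    push_cast
    rfl
  · have : IsEmpty {s : Fin k → V // LinearIndependent F s} := ⟨fun s => by
      have := s.2.fintype_card_le_finrank
      rw [Fintype.card_fin] at this
      omega⟩
    rw [Nat.card_of_isEmpty, Nat.cast_zero]
    symm
    refine Finset.prod_eq_zero (Finset.mem_range.2 h) ?_
    rw [sub_self]

lemma prod_k (k : ℕ) : ∏ i ∈ Finset.range k, ((2 : ℝ) ^ k - 2 ^ i) =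
    2 ^ (∑ i ∈ Finset.range k, i) * ∏ i ∈ Finset.range k, ((2 : ℝ) ^ (i + 1) - 1) := by
  rw [← Finset.prod_pow_eq_pow_sum, ← Finset.prod_range_reflect (fun i => (2 : ℝ) ^ (i + 1) - 1),
    ← Finset.prod_mul_distrib]
  refine Finset.prod_congr rfl fun i hi => ?_
  rw [Finset.mem_range] at hi
  have h1 : k - 1 - i + 1 = k - i := by omega
  rw [h1, mul_sub, ← pow_add, mul_one]
  congr 2
  omega

lemma prod_n (n k : ℕ) : ∏ i ∈ Finset.range k, ((2 : ℝ) ^ n - 2 ^ i) =
    2 ^ (n * k) * ∏ i ∈ Finset.range k, (1 - (2 : ℝ) ^ i / 2 ^ n) := by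
  rw [pow_mul, ← Finset.card_range k, ← Finset.prod_const, Finset.card_range,
    ← Finset.prod_mul_distrib]
  refine Finset.prod_congr rfl fun i hi => ?_
  rw [mul_sub, mul_one, mul_div_cancel₀]
  positivity

lemma expo (m k : ℕ) : m * (m + 1) / 2 + (m + k) * k =
    (m + k) * (m + k + 1) / 2 + ∑ i ∈ Finset.range k, i := by
  have h1 : 2 * (m * (m + 1) / 2) = m * (m + 1) :=
    Nat.mul_div_cancel' (Nat.even_mul_succ_self m).two_dvd
  have h2 : 2 * ((m + k) * (m + k + 1) / 2) = (m + k) * (m + k + 1) :=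
    Nat.mul_div_cancel' (Nat.even_mul_succ_self (m + k)).two_dvd
  have h3 : 2 * (∑ i ∈ Finset.range k, i) + k = k * k := by
    induction k with
    | zero => simp
    | succ k ih =>
      rw [Finset.sum_range_succ]
      have := ih (Nat.mul_div_cancel' (Nat.even_mul_succ_self (m + k)).two_dvd)
      nlinarith
  nlinarith

theorem fr_Rk (h : S_SYM) (k : ℕ) : fr (fun S : Sy V => Rk k S.1) = spk (finrank F V) k := by
  have h2 : ∀ s : {s : Fin k → V // LinearIndependent F s},
      (Nat.card {S : Sy V // LinearMap.ker S.1 = Submodule.span F (Set.range s.1)} : ℝ) =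
      sp (finrank F V - k) * 2 ^ ((finrank F V - k) * (finrank F V - k + 1) / 2) := by
    intro s
    have hfi : Finite (V ⧸ Submodule.span F (Set.range s.1)) :=
      Finite.of_surjective _ (Submodule.mkQ_surjective (Submodule.span F (Set.range s.1)))
    rw [card_ker_eq, card_Ns h]
    have h3 : finrank F (V ⧸ Submodule.span F (Set.range s.1)) = finrank F V - k := by
      have h4 := Submodule.finrank_quotient_add_finrank (Submodule.span F (Set.range s.1))
      rw [finrank_span_eq_card s.2, Fintype.card_fin] at h4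
      omega
    rw [h3]
  have h3 : (Nat.card {S : Sy V // Rk k S.1} : ℝ) *
      (2 ^ (∑ i ∈ Finset.range k, i) * ∏ i ∈ Finset.range k, ((2 : ℝ) ^ (i + 1) - 1)) =
      (2 ^ (finrank F V * k) * ∏ i ∈ Finset.range k, (1 - (2 : ℝ) ^ i / 2 ^ finrank F V)) *
      (sp (finrank F V - k) * 2 ^ ((finrank F V - k) * (finrank F V - k + 1) / 2)) := by
    rw [← prod_k, ← prod_n]
    have h4 := card_li (V := Fin k → F) k
    rw [finrank_fin_fun] at h4
    rw [← h4, ← card_li (V := V) k]
    rcases isEmpty_or_nonempty {s : Fin k → V // LinearIndependent F s} with he | ⟨⟨s0⟩⟩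
    · have h1 := count (V := V) k 0 (fun s => (he.false s).elim)
      rw [Nat.card_of_isEmpty (α := {s : Fin k → V // LinearIndependent F s}), Nat.cast_zero,
        zero_mul]
      exact_mod_cast h1
    · obtain ⟨c, hc⟩ : ∃ c, c = Nat.card {S : Sy V // LinearMap.ker S.1 =
        Submodule.span F (Set.range s0.1)} := ⟨_, rfl⟩
      have h6 := h2 s0
      rw [← hc] at h6
      have h1 := count (V := V) k c (fun s => by
        have h7 := h2 s
        rw [← h6] at h7
        exact_mod_cast h7)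
      rw [← h6]
      exact_mod_cast h1
  have hD : (0 : ℝ) < ∏ i ∈ Finset.range k, ((2 : ℝ) ^ (i + 1) - 1) := by
    linarith [den_pos k]
  unfold fr
  rw [card_Sy]
  push_cast
  rcases lt_or_ge (finrank F V) k with hk | hk
  · rw [P_zero _ _ hk, mul_zero, zero_mul] at h3
    have h4 : (Nat.card {S : Sy V // Rk k S.1} : ℝ) = 0 := by
      rcases mul_eq_zero.1 h3 with h | h
      · exact h
      · exfalso
        have : (0 : ℝ) < 2 ^ (∑ i ∈ Finset.range k, i) *
          ∏ i ∈ Finset.range k, ((2 : ℝ) ^ (i + 1) - 1) := by positivity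
        linarith
    rw [h4, zero_div]
    unfold spk
    rw [P_zero _ _ hk, zero_mul, zero_div]
  · obtain ⟨m, hm⟩ := Nat.exists_eq_add_of_le hk
    have hm' : finrank F V = m + k := by omega
    unfold spk
    rw [hm', Nat.add_sub_cancel] at h3
    rw [hm', Nat.add_sub_cancel]
    rw [div_eq_div_iff (by positivity) hD.ne']
    have h6 := expo m k
    have h7 : (2 : ℝ) ^ (m * (m + 1) / 2) * 2 ^ ((m + k) * k) =
        2 ^ ((m + k) * (m + k + 1) / 2) * 2 ^ (∑ i ∈ Finset.range k, i) := by
      rw [← pow_add, ← pow_add, h6]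
    have h8 : (0 : ℝ) < 2 ^ (∑ i ∈ Finset.range k, i) := by positivity
    refine mul_right_cancel₀ h8.ne' ?_
    set A := (Nat.card {S : Sy V // Rk k S.1} : ℝ)
    set D := ∏ i ∈ Finset.range k, ((2 : ℝ) ^ (i + 1) - 1)
    set P := ∏ i ∈ Finset.range k, (1 - (2 : ℝ) ^ i / 2 ^ (m + k))
    calc A * D * 2 ^ (∑ i ∈ Finset.range k, i)
        = A * (2 ^ (∑ i ∈ Finset.range k, i) * D) := by ring
      _ = 2 ^ ((m + k) * k) * P * (sp m * 2 ^ (m * (m + 1) / 2)) := h3
      _ = P * sp m * (2 ^ (m * (m + 1) / 2) * 2 ^ ((m + k) * k)) := by ring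
      _ = P * sp m * 2 ^ ((m + k) * (m + k + 1) / 2) * 2 ^ (∑ i ∈ Finset.range k, i) := by
          rw [h7]
          ring

end fin

end Pool.Agent.U756.GD
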