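import Pool.Agent.U756.GD.RadK
import Pool.Agent.Y219.CQ.Blk

/-!
# Project GDK: reduction of the radical to a random symmetric form
-/

set_option autoImplicit false
set_option linter.unusedVariables false

open scoped Classical

namespace Pool.Agent.U756.GD

open Function Module
open Pool.Agent.Y759.CX (fr fr_equiv fr_nonneg fr_le_one fr_mono fr_not fr_prod fr_comp fr_exists
  fr_single)
open Pool.Agent.Y703.CQ (S_SYM S_C2 c2)
open Pool.Agent.Y219.CQ (F card_mod finHom finHom2 Sy finSy sp Ns card_symm fr_Ns avg_bound mf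
  mf_apply)
open Pool.Agent.U115.GD (ck)

section abs

variable {V W N X : Type} [AddCommGroup V] [Module F V] [Finite V]
  [AddCommGroup W] [Module F W] [Finite W] [AddCommGroup N] [Module F N] [Finite N]
  [AddCommGroup X] [Module F X] [Finite X]

/-- the double orthogonal complement -/
lemma oo (B : W →ₗ[F] W →ₗ[F] F) (hB : ∀ x y, B x y = B y x) (K : Submodule F W) :
    LinearMap.BilinForm.orthogonal B (LinearMap.BilinForm.orthogonal B K) =
      K ⊔ LinearMap.BilinForm.orthogonal B ⊤ := by
  have hR : LinearMap.IsRefl B := fun x y h => by rw [hB]; exact h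
  symm
  refine Submodule.eq_of_le_of_finrank_eq ?_ ?_
  · refine sup_le (LinearMap.BilinForm.le_orthogonal_orthogonal hR) ?_
    exact LinearMap.BilinForm.orthogonal_le le_top
  · have h1 := LinearMap.BilinForm.finrank_add_finrank_orthogonal hR K
    have h2 := LinearMap.BilinForm.finrank_add_finrank_orthogonal hR
      (LinearMap.BilinForm.orthogonal B K)
    have h3 : LinearMap.BilinForm.orthogonal B K ⊓ LinearMap.BilinForm.orthogonal B ⊤ =
        LinearMap.BilinForm.orthogonal B ⊤ :=
      inf_eq_right.2 (LinearMap.BilinForm.orthogonal_le le_top)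
    rw [h3] at h2
    have h4 := Submodule.finrank_sup_add_finrank_inf_eq K (LinearMap.BilinForm.orthogonal B ⊤)
    have h5 : finrank F (K ⊓ LinearMap.BilinForm.orthogonal B ⊤ : Submodule F W) ≤ finrank F K :=
      Submodule.finrank_mono inf_le_left
    omega

/-- reduction to the quotient of the orthogonal complement of the kernel by its radical -/
theorem redk (hsym : S_SYM) (M : W →ₗ[F] W →ₗ[F] F) (hM : ∀ x y, M x y = M y x) (π : W →ₗ[F] N)
    (hπ : Surjective π) (good : ∀ w, π w = 0 → (∀ w', M w w' = 0) → w = 0) (τ : W →ₗ[F] X)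
    (hτ : ∀ w, π w = 0 → (∀ k, π k = 0 → M w k = 0) → τ w = 0 → w = 0) (k : ℕ) :
    ∃ m, finrank F N ≤ m + finrank F X ∧
      fr (fun T : Sy N => Rk k (M + T.1.compl₁₂ π π)) = spk m k := by
  have hR : LinearMap.IsRefl M := fun x y h => by rw [hM]; exact h
  let K : Submodule F W := LinearMap.ker π
  let P : Submodule F W := LinearMap.BilinForm.orthogonal M K
  have hP : ∀ w, w ∈ P ↔ ∀ k, π k = 0 → M w k = 0 := fun w => by
    constructor
    · intro h k hk
      rw [hM]
      exact h k hk
    · intro h k hk
      rw [hM]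
      exact h k hk
  have hfin1 : finrank F K + finrank F P = finrank F W := by
    have h1 := LinearMap.BilinForm.finrank_add_finrank_orthogonal hR K
    have h2 : K ⊓ LinearMap.BilinForm.orthogonal M ⊤ = ⊥ := by
      rw [eq_bot_iff]
      intro w hw
      rw [Submodule.mem_inf] at hw
      rw [Submodule.mem_bot]
      exact good w hw.1 (fun w' => by rw [hM]; exact hw.2 w' Submodule.mem_top)
    rw [h2, finrank_bot, add_zero] at h1
    exact h1
  have hfin2 : finrank F N + finrank F K = finrank F W := by
    have h1 := LinearMap.finrank_range_add_finrank_ker π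
    rw [LinearMap.range_eq_top.2 hπ, finrank_top] at h1
    exact h1
  let r : P →ₗ[F] N := π.domRestrict P
  let Z := LinearMap.range r
  have hfin3 : finrank F Z + finrank F (LinearMap.ker r) = finrank F P :=
    LinearMap.finrank_range_add_finrank_ker r
  have hfin4 : finrank F (LinearMap.ker r) ≤ finrank F X := by
    refine LinearMap.finrank_le_finrank_of_injective
      (f := τ ∘ₗ P.subtype ∘ₗ (LinearMap.ker r).subtype) ?_
    rw [injective_iff_map_eq_zero]
    intro w hw
    have h1 : π (w.1 : W) = 0 := w.2
    have h2 := hτ _ h1 ((hP _).1 w.1.2) hw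
    exact Subtype.ext (Subtype.ext h2)
  refine ⟨finrank F Z, by omega, ?_⟩
  obtain ⟨σ, hσ⟩ := r.rangeRestrict.exists_rightInverse_of_surjective
    (LinearMap.range_rangeRestrict r)
  have hσ' : ∀ z : Z, π (σ z : W) = z := fun z => congrArg Subtype.val (LinearMap.congr_fun hσ z)
  have hσP : ∀ z : Z, ((σ z : P) : W) ∈ P := fun z => (σ z).2
  let ρ : Sy N →+ Sy Z :=
    { toFun := fun T => ⟨T.1.compl₁₂ Z.subtype Z.subtype, fun x y => T.2 x y⟩
      map_zero' := rfl
      map_add' := fun _ _ => rfl }
  have hρ : Surjective ρ := by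
    obtain ⟨q, hq⟩ := LinearMap.exists_leftInverse_of_injective Z.subtype
      (LinearMap.ker_eq_bot.2 Z.injective_subtype)
    have hq' : ∀ z : Z, q (z : N) = z := fun z => LinearMap.congr_fun hq z
    intro T
    refine ⟨⟨T.1.compl₁₂ q q, fun x y => T.2 _ _⟩, ?_⟩
    refine Subtype.ext (LinearMap.ext fun x => LinearMap.ext fun y => ?_)
    show T.1 (q (x : N)) (q (y : N)) = T.1 x y
    rw [hq', hq']
  let β : Sy Z := ⟨M.compl₁₂ (P.subtype ∘ₗ σ) (P.subtype ∘ₗ σ), fun x y => hM _ _⟩
  have hval : ∀ (T : Sy N) (z z' : Z), (ρ T + β).1 z z' =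
      T.1 (z : N) (z' : N) + M (σ z : W) (σ z' : W) := fun _ _ _ => rfl
  have hiff : ∀ T : Sy N, finrank F (LinearMap.ker (M + T.1.compl₁₂ π π)) =
      finrank F (LinearMap.ker (ρ T + β).1) := by
    intro T
    obtain ⟨M', hMM⟩ : ∃ M' : W →ₗ[F] W →ₗ[F] F, M' = M + T.1.compl₁₂ π π := ⟨_, rfl⟩
    have hM' : ∀ w w', M' w w' = M w w' + T.1 (π w) (π w') := fun w w' => by rw [hMM]; rfl
    have hS' : ∀ w w', M' w w' = M' w' w := fun w w' => by
      rw [hM', hM', hM w w', T.2 (π w) (π w')]
    rw [← hMM]
    have i1 : Injective (π.domRestrict (LinearMap.ker M')) := by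
      rw [injective_iff_map_eq_zero]
      rintro ⟨w, hw⟩ h
      have h2 : π w = 0 := h
      refine Subtype.ext (good w h2 fun w' => ?_)
      have h3 := LinearMap.congr_fun (LinearMap.mem_ker.1 hw) w'
      rwa [hM', h2, map_zero, LinearMap.zero_apply, add_zero] at h3
    have i2 : Injective (Z.subtype.domRestrict (LinearMap.ker (ρ T + β).1)) := by
      rintro ⟨w, hw⟩ ⟨w', hw'⟩ h
      exact Subtype.ext (Subtype.ext h)
    have heq : LinearMap.range (π.domRestrict (LinearMap.ker M')) =
        LinearMap.range (Z.subtype.domRestrict (LinearMap.ker (ρ T + β).1)) := by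
      ext n
      constructor
      · rintro ⟨⟨w, hw⟩, rfl⟩
        have hw' : ∀ w', M w w' + T.1 (π w) (π w') = 0 := fun w' => by
          rw [← hM']
          exact LinearMap.congr_fun (LinearMap.mem_ker.1 hw) w'
        have hwP : w ∈ P := (hP w).2 fun k hk => by
          have h1 := hw' k
          rwa [hk, map_zero, add_zero] at h1
        obtain ⟨z, hz⟩ : ∃ z : Z, (z : N) = π w := ⟨⟨π w, ⟨w, hwP⟩, rfl⟩, rfl⟩
        refine ⟨⟨z, ?_⟩, hz⟩
        rw [LinearMap.mem_ker]
        refine LinearMap.ext fun z' => ?_
        rw [hval]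
        have h5 : π (w - (σ z : W)) = 0 := by rw [map_sub, hσ', hz, sub_self]
        have h6 := (hP _).1 (hσP z') _ h5
        rw [map_sub, sub_eq_zero] at h6
        rw [hM, ← h6, hM, hz, ← hσ' z', add_comm]
        exact hw' _
      · rintro ⟨⟨z, hz⟩, rfl⟩
        have hz' : ∀ z' : Z, T.1 (z : N) (z' : N) + M (σ z : W) (σ z' : W) = 0 := fun z' => by
          rw [← hval]
          exact LinearMap.congr_fun (LinearMap.mem_ker.1 hz) z'
        have h2 : LinearMap.BilinForm.orthogonal M' K = P := by
          ext w
          constructor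
          · intro hw k hk
            have h3 := hw k hk
            have h4 : π k = 0 := hk
            rw [hM', h4, map_zero, LinearMap.zero_apply, add_zero] at h3
            exact h3
          · intro hw k hk
            have h4 : π k = 0 := hk
            rw [hM', h4, map_zero, LinearMap.zero_apply, add_zero]
            exact hw k hk
        have h3 : ((σ z : P) : W) ∈ LinearMap.BilinForm.orthogonal M' P := by
          intro w' hw'
          rw [hS', hM']
          obtain ⟨z', hz'1⟩ : ∃ z' : Z, (z' : N) = π w' := ⟨⟨π w', ⟨w', hw'⟩, rfl⟩, rfl⟩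
          have h4 := hz' z'
          have h5 : π (w' - (σ z' : W)) = 0 := by rw [map_sub, hσ', hz'1, sub_self]
          have h6 := (hP _).1 (hσP z) _ h5
          rw [map_sub, sub_eq_zero] at h6
          rw [h6, hσ', ← hz'1, add_comm]
          exact h4
        have h8 : LinearMap.BilinForm.orthogonal M' P =
            K ⊔ LinearMap.BilinForm.orthogonal M' ⊤ := by
          rw [← oo M' hS' K, h2]
        rw [h8, Submodule.mem_sup] at h3
        obtain ⟨a, ha, b, hb, hab⟩ := h3
        have hb' : b ∈ LinearMap.ker M' := by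
          rw [LinearMap.mem_ker]
          refine LinearMap.ext fun w' => ?_
          rw [hS']
          exact hb w' Submodule.mem_top
        refine ⟨⟨b, hb'⟩, ?_⟩
        show π b = (z : N)
        have ha' : π a = 0 := ha
        rw [← hσ' z, ← hab, map_add, ha', zero_add]
    rw [← LinearMap.finrank_range_of_inj i1, heq, LinearMap.finrank_range_of_inj i2]
  rw [← fr_Rk hsym (V := Z), ← fr_equiv (Equiv.addRight β) (fun S : Sy Z => Rk k S.1),
    ← fr_comp ρ hρ]
  congr 1
  funext T
  unfold Rk
  rw [hiff T]
  rfl

end abs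

section blk

variable {V X : Type} [AddCommGroup V] [Module F V] [Finite V]
  [AddCommGroup X] [Module F X] [Finite X]

theorem fr_GsK (hsym : S_SYM) (hc2 : S_C2) (k : ℕ) (A : X →ₗ[F] X →ₗ[F] F)
    (hA : ∀ x y, A x y = A y x)
    (c : X →ₗ[F] V →ₗ[F] F) (hc : ∀ x, (∀ y, c x y = 0) → x = 0) :
    |fr (fun S : Sy V => Rk k (mf A c S.1)) - ck k| ≤
      (2 ^ (k + 1) + 1) * (4 ^ finrank F X / 2 ^ finrank F V) := by
  let N : Submodule F V := LinearMap.ker c.flip
  have hN : ∀ z : N, ∀ x, c x (z : V) = 0 := fun z x => LinearMap.congr_fun (z.2 : c.flip z = 0) x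
  have hN' : ∀ z : V, (∀ x, c x z = 0) → z ∈ N := fun z hz => LinearMap.ext fun x => hz x
  obtain ⟨p, hp⟩ := LinearMap.exists_leftInverse_of_injective N.subtype
    (LinearMap.ker_eq_bot.2 N.injective_subtype)
  have hp' : ∀ z : N, p (z : V) = z := fun z => LinearMap.congr_fun hp z
  have hpS : Surjective p := fun z => ⟨z, hp' z⟩
  have hd1 : finrank F V ≤ finrank F N + finrank F X := by
    have h1 := LinearMap.finrank_range_add_finrank_ker c.flip
    have h2 : finrank F (LinearMap.range c.flip) ≤ finrank F (Module.Dual F X) :=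
      Submodule.finrank_le _
    rw [Subspace.dual_finrank_eq] at h2
    have h3 : finrank F N = finrank F (LinearMap.ker c.flip) := rfl
    omega
  have hd2 : finrank F N + finrank F (LinearMap.ker p) = finrank F V := by
    have h1 := LinearMap.finrank_range_add_finrank_ker p
    rw [LinearMap.range_eq_top.2 hpS, finrank_top] at h1
    exact h1
  let φ : Sy N →+ Sy V :=
    { toFun := fun T => ⟨T.1.compl₁₂ p p, fun x y => T.2 _ _⟩
      map_zero' := rfl
      map_add' := fun _ _ => rfl }
  have hφ : ∀ (S : Sy V) (T : Sy N) (y y' : V), (S + φ T).1 y y' = S.1 y y' + T.1 (p y) (p y') :=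
    fun _ _ _ _ => rfl
  have hck0 : 0 ≤ ck k := by
    unfold Pool.Agent.U115.GD.ck
    exact div_nonneg hc2.2.1.le (by linarith [den_pos k])
  have hck1 : ck k ≤ 1 := by
    unfold Pool.Agent.U115.GD.ck
    exact (div_le_self hc2.2.1.le (den_pos k)).trans hc2.2.2.1.le
  have key := avg_bound φ (fun S : Sy V => Rk k (mf A c S.1))
    (fun S : Sy V => ¬ ∃ e : LinearMap.ker p, e ≠ 0 ∧ ∀ z : N, S.1 e z = 0) (c := ck k)
    (ε := 2 ^ (k + 1) * (4 ^ finrank F X / 2 ^ finrank F V))
    (δ := 4 ^ finrank F X / 2 ^ finrank F V)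
    hck0 hck1 ?_ (by positivity) ?_
  · rw [add_mul, one_mul]
    exact key
  · intro S hS
    have hS' : ∀ y : V, p y = 0 → (∀ z : N, S.1 y z = 0) → y = 0 := by
      intro y hy hz
      by_contra hne
      exact hS ⟨⟨y, hy⟩, fun h => hne (congrArg Subtype.val h), hz⟩
    obtain ⟨m, hm, hm'⟩ := redk (X := X) hsym (mf A c S.1)
      (fun w w' => by
        rw [mf_apply, mf_apply, hA w.1 w'.1, S.2 w.2 w'.2]
        abel)
      (p ∘ₗ LinearMap.snd F X V) (hpS.comp Prod.snd_surjective)
      (by
        intro w hw h
        have h2 : w.2 = 0 := hS' _ hw fun z => by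
          have h3 := h (0, (z : V))
          rw [mf_apply] at h3
          simp only [map_zero, LinearMap.zero_apply, zero_add, hN, add_zero] at h3
          exact h3
        have h1 : w.1 = 0 := hc _ fun y => by
          have h3 := h (0, y)
          rw [mf_apply, h2] at h3
          simp only [map_zero, LinearMap.zero_apply, zero_add, add_zero] at h3
          exact h3
        exact Prod.ext h1 h2)
      (LinearMap.fst F X V)
      (by
        intro w hw h h1
        have h1' : w.1 = 0 := h1
        have h2 : w.2 ∈ N := hN' _ fun x => by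
          have h3 := h (x, 0) (by
            show p 0 = 0
            rw [map_zero])
          rw [mf_apply, h1'] at h3
          simp only [map_zero, LinearMap.zero_apply, zero_add, add_zero] at h3
          exact h3
        have h3 := hp' ⟨w.2, h2⟩
        have h4 : p w.2 = 0 := hw
        have h5 : w.2 = 0 := by
          have h6 := congrArg Subtype.val h3
          simp only [h4] at h6
          exact h6.symm
        exact Prod.ext h1' h5) k
    have h2 : fr (fun T : Sy N => Rk k (mf A c (S + φ T).1)) = spk m k := by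
      rw [← hm']
      congr 1
      funext T
      congr 1
      refine LinearMap.ext fun w => LinearMap.ext fun w' => ?_
      show mf A c (S + φ T).1 w w' = mf A c S.1 w w' + T.1 (p w.2) (p w'.2)
      rw [mf_apply, mf_apply, hφ]
      abel
    rw [h2]
    refine (spk_bound hc2 m k).trans ?_
    rw [mul_div_assoc', div_le_div_iff₀ (by positivity) (by positivity), mul_assoc]
    refine mul_le_mul_of_nonneg_left ?_ (by positivity)
    have h3 : (4 : ℝ) ^ finrank F X = 2 ^ (2 * finrank F X) := by
      rw [pow_mul]
      norm_num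
    rw [h3, ← pow_add]
    exact pow_le_pow_right₀ (by norm_num) (by omega)
  · simp only [not_not]
    have := Fintype.ofFinite (LinearMap.ker p)
    have h1 : ∀ e : LinearMap.ker p, fr (fun S : Sy V => e ≠ 0 ∧ ∀ z : N, S.1 e z = 0) ≤
        1 / 2 ^ finrank F N := by
      intro e
      by_cases he : e = 0
      · have : fr (fun S : Sy V => e ≠ 0 ∧ ∀ z : N, S.1 e z = 0) = 0 := by
          unfold Pool.Agent.Y759.CX.fr
          have : IsEmpty {S : Sy V // e ≠ 0 ∧ ∀ z : N, S.1 e z = 0} := ⟨fun x => x.2.1 he⟩
          rw [Nat.card_of_isEmpty, Nat.cast_zero, zero_div]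
        rw [this]
        positivity
      · let ψ : Sy V →+ (N →ₗ[F] F) :=
          { toFun := fun S => S.1 e ∘ₗ N.subtype
            map_zero' := rfl
            map_add' := fun _ _ => rfl }
        have hψ : Surjective ψ := by
          intro f
          obtain ⟨ε, hε⟩ : ∃ ε : V →ₗ[F] F, ε e = 1 := by
            have h3 := mt (Module.forall_dual_apply_eq_zero_iff F (e : V)).1
              (fun h => he (Subtype.ext h))
            push Not at h3
            obtain ⟨φ, hφ⟩ := h3
            exact ⟨(φ e)⁻¹ • φ, by
              rw [LinearMap.smul_apply, smul_eq_mul, inv_mul_cancel₀ hφ]⟩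
          let S0 : V →ₗ[F] V →ₗ[F] F := LinearMap.mk₂ F (fun y y' => ε y * f (p y') + f (p y) * ε y')
            (fun x y z => by simp only [map_add]; ring)
            (fun a x y => by simp only [map_smul, smul_eq_mul]; ring)
            (fun x y z => by simp only [map_add]; ring)
            (fun a x y => by simp only [map_smul, smul_eq_mul]; ring)
          refine ⟨⟨S0, fun x y => ?_⟩, ?_⟩
          · show ε x * f (p y) + f (p x) * ε y = ε y * f (p x) + f (p y) * ε x
            ring
          · refine LinearMap.ext fun z => ?_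
            show ε e * f (p (z : V)) + f (p (e : V)) * ε z = f z
            have h5 : p (e : V) = 0 := e.2
            rw [hε, hp', h5, map_zero, zero_mul, add_zero, one_mul]
        have h4 : fr (fun S : Sy V => e ≠ 0 ∧ ∀ z : N, S.1 e z = 0) ≤
            fr (fun S : Sy V => (fun f => f = 0) (ψ S)) :=
          fr_mono fun S hS => LinearMap.ext fun z => hS.2 z
        refine h4.trans (le_of_eq ?_)
        rw [fr_comp ψ hψ (fun f => f = 0), fr_single, card_mod]
        have h6 : finrank F (N →ₗ[F] F) = finrank F N := Subspace.dual_finrank_eq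
        rw [h6]
        push_cast
        rfl
    refine (fr_exists _ h1).trans ?_
    rw [← Nat.card_eq_fintype_card, card_mod]
    push_cast
    rw [mul_one_div, div_le_div_iff₀ (by positivity) (by positivity)]
    have h3 : (4 : ℝ) ^ finrank F X = 2 ^ (2 * finrank F X) := by
      rw [pow_mul]
      norm_num
    rw [h3, ← pow_add, ← pow_add]
    exact pow_le_pow_right₀ (by norm_num) (by omega)

end blk

end Pool.Agent.U756.GD
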